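import Pool.Agent.U737.MN.Stm3
import Pool.Agent.TH365.J3099

/-!
Project MN, package ForwL: extensions with group `C_ℓ ≀ H` are Kummer extensions.
-/

set_option autoImplicit false

open Pool.Agent.U737.MN IntermediateField
open Pool.Agent.TH365.J3099 (act act_apply act_apply_apply)

namespace Pool.Agent.U458.MN

section main

variable {K Ω : Type} [Field K] [CharZero K] [Field Ω] [Algebra K Ω] [IsAlgClosure K Ω]
variable {H X : Type} [Group H] [Finite H] [MulAction H X] [Finite X]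

theorem forwardL [Nonempty X] [MulAction.IsPretransitive H X] [FaithfulSMul H X] (ℓ : ℕ)
    (hℓ : ℓ.Prime) (hZ : HasZ ℓ K)
    (L : IntermediateField K Ω) (hL : Module.finrank K L = ℓ * Nat.card X)
    (hw : IsWrL K Ω ℓ H X L) :
    ∃ (M : IntermediateField K Ω) (s : Ω), M ∈ Gal K Ω H X ∧ Kum ℓ M L s := by
  classical
  have i6 : Fact ℓ.Prime := ⟨hℓ⟩
  have i7 : NeZero ℓ := ⟨hℓ.ne_zero⟩
  obtain ⟨e, he⟩ := hw
  have hpos : 0 < Nat.card X := Nat.card_pos
  have hfd : FiniteDimensional K L :=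
    FiniteDimensional.of_finrank_pos (by rw [hL]; exact Nat.mul_pos hℓ.pos hpos)
  have i1 : IsAlgClosed Ω := IsAlgClosure.isAlgClosed K
  have i2 : Normal K Ω := IsAlgClosure.normal K Ω
  have i3 : Algebra.IsAlgebraic K Ω := IsAlgClosure.isAlgebraic
  have i4 : Algebra.IsSeparable K Ω := inferInstance
  have i5 : IsGalois K Ω := ⟨⟩
  let P : (Ω ≃ₐ[K] Ω) →* Equiv.Perm (X × ZMod ℓ) := e.permCongrHom.toMonoidHom.comp (act L)
  have hP : ∀ (σ : Ω ≃ₐ[K] Ω) (φ : L →ₐ[K] Ω), e (act L σ φ) = P σ (e φ) := by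
    intro σ φ
    change _ = e (act L σ (e.symm (e φ)))
    rw [Equiv.symm_apply_apply]
  have hPW : ∀ σ, ∃ (h : H) (c : X → ZMod ℓ), ∀ (x : X) (t : ZMod ℓ),
      P σ (x, t) = (h • x, c x + t) :=
    fun σ => (he _).2 ⟨σ, fun φ => hP σ φ⟩
  choose h0 c0 hh0 using hPW
  let h : (Ω ≃ₐ[K] Ω) →* H :=
    { toFun := h0
      map_one' := by
        apply FaithfulSMul.eq_of_smul_eq_smul (α := X)
        intro x
        have h1 := congrArg Prod.fst (hh0 1 x 0)
        simp only at h1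
        rw [← h1]
        simp
      map_mul' := fun σ τ => by
        apply FaithfulSMul.eq_of_smul_eq_smul (α := X)
        intro x
        have h1 := hh0 (σ * τ) x 0
        rw [map_mul, Equiv.Perm.mul_apply, hh0 τ, hh0 σ] at h1
        have h2 := congrArg Prod.fst h1
        simp only at h2
        rw [← h2, mul_smul] }
  have hh : ∀ σ (x : X) (t : ZMod ℓ), P σ (x, t) = (h σ • x, c0 σ x + t) := hh0
  have hs : Function.Surjective h := by
    intro a
    obtain ⟨σ, hσ⟩ := (he (Equiv.prodCongr (MulAction.toPerm a) (Equiv.refl (ZMod ℓ)))).1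
      ⟨a, fun _ => 0, fun x t => by simp⟩
    refine ⟨σ, ?_⟩
    apply FaithfulSMul.eq_of_smul_eq_smul (α := X)
    intro x
    have h1 := hσ (e.symm (x, 0))
    rw [← act_apply, hP, Equiv.apply_symm_apply] at h1
    have h2 := hh σ x 0
    rw [h1] at h2
    have h3 := congrArg Prod.fst h2
    simpa using h3.symm
  obtain ⟨x₀, hx₀⟩ : ∃ x₀, x₀ = (e L.val).1 := ⟨_, rfl⟩
  obtain ⟨t₀, ht₀⟩ : ∃ t₀, t₀ = (e L.val).2 := ⟨_, rfl⟩
  have heL : e L.val = (x₀, t₀) := by rw [hx₀, ht₀]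
  let S : Subgroup (Ω ≃ₐ[K] Ω) := (MulAction.stabilizer H x₀).comap h
  have hS : ∀ σ, σ ∈ S ↔ h σ • x₀ = x₀ := fun σ => Iff.rfl
  -- the fixing subgroup of `L`
  have hLfix : ∀ σ, σ ∈ L.fixingSubgroup ↔ σ ∈ S ∧ c0 σ x₀ = 0 := by
    intro σ
    have h0 : σ ∈ L.fixingSubgroup ↔ act L σ L.val = L.val := by
      rw [IntermediateField.mem_fixingSubgroup_iff]
      constructor
      · intro hσ
        ext x
        rw [act_apply_apply]
        exact hσ _ x.2
      · intro h1 x hx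
        have h3 := congrArg (fun φ : L →ₐ[K] Ω => φ ⟨x, hx⟩) h1
        simp only [act_apply_apply] at h3
        exact h3
    rw [h0, ← e.injective.eq_iff, hP, heL, hh, Prod.mk.injEq, hS, add_eq_right]
  have hker : L.fixingSubgroup ≤ S := fun σ hσ => ((hLfix σ).1 hσ).1
  have hopen : IsOpen (S : Set (Ω ≃ₐ[K] Ω)) :=
    Subgroup.isOpen_mono hker L.fixingSubgroup_isOpen
  have hclosed : IsClosed (S : Set (Ω ≃ₐ[K] Ω)) := Subgroup.isClosed_of_isOpen _ hopen
  obtain ⟨M, hMdef⟩ : ∃ M, M = fixedField S := ⟨_, rfl⟩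
  have hM : M.fixingSubgroup = S := by
    rw [hMdef]
    exact InfiniteGalois.fixingSubgroup_fixedField ⟨S, hclosed⟩
  have hMfd : FiniteDimensional K M := by
    rw [← InfiniteGalois.isOpen_iff_finite, hM]
    exact hopen
  -- every embedding of `M` is a restriction
  have hext : ∀ φ : M →ₐ[K] Ω, ∃ σ : Ω ≃ₐ[K] Ω, act M σ M.val = φ := by
    intro φ
    let f : Ω →ₐ[K] Ω := φ.liftNormal Ω
    have hf : Function.Bijective f := Algebra.IsAlgebraic.algHom_bijective f
    refine ⟨AlgEquiv.ofBijective f hf, ?_⟩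
    ext x
    rw [act_apply_apply]
    exact AlgHom.liftNormal_commutes φ Ω x
  choose s hsφ using hext
  have key : ∀ σ τ : Ω ≃ₐ[K] Ω, act M σ M.val = act M τ M.val ↔ h σ • x₀ = h τ • x₀ := by
    intro σ τ
    have h1 : act M σ M.val = act M τ M.val ↔ τ⁻¹ * σ ∈ M.fixingSubgroup := by
      rw [IntermediateField.mem_fixingSubgroup_iff]
      constructor
      · intro h2 x hx
        have h3 := congrArg (fun φ : M →ₐ[K] Ω => φ ⟨x, hx⟩) h2
        simp only [act_apply_apply] at h3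
        have h4 : σ x = τ x := h3
        rw [AlgEquiv.mul_apply, h4]
        exact AlgEquiv.symm_apply_apply τ x
      · intro h2
        ext x
        rw [act_apply_apply, act_apply_apply]
        have h3 := h2 x x.2
        rw [AlgEquiv.mul_apply] at h3
        have h4 := congrArg τ h3
        have h5 : τ (τ⁻¹ (σ (x : Ω))) = σ x := AlgEquiv.apply_symm_apply τ _
        rw [h5] at h4
        exact h4
    rw [h1, hM, hS, map_mul, map_inv, mul_smul, inv_smul_eq_iff]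
  let θ : (M →ₐ[K] Ω) → X := fun φ => h (s φ) • x₀
  have hθ : ∀ σ, θ (act M σ M.val) = h σ • x₀ := fun σ => (key _ _).1 (hsφ _)
  have hθinj : Function.Injective θ := by
    intro φ ψ hφψ
    rw [← hsφ φ, ← hsφ ψ]
    exact (key _ _).2 hφψ
  have hθsurj : Function.Surjective θ := by
    intro x
    obtain ⟨a, ha⟩ := MulAction.exists_smul_eq H x₀ x
    obtain ⟨σ, rfl⟩ := hs a
    exact ⟨act M σ M.val, by rw [hθ, ha]⟩
  let e' : (M →ₐ[K] Ω) ≃ X := Equiv.ofBijective θ ⟨hθinj, hθsurj⟩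
  have he'0 : ∀ (σ : Ω ≃ₐ[K] Ω) (φ : M →ₐ[K] Ω), e' (σ.toAlgHom.comp φ) = h σ • e' φ := by
    intro σ φ
    change θ (act M σ φ) = h σ • θ φ
    rw [← hsφ φ, ← Equiv.Perm.mul_apply, ← map_mul, hθ, hθ, map_mul, mul_smul]
  have he' : ∀ π : Equiv.Perm X, (∃ h : H, ∀ x, π x = h • x) ↔
      ∃ σ : Ω ≃ₐ[K] Ω, ∀ φ : M →ₐ[K] Ω, e' (σ.toAlgHom.comp φ) = π (e' φ) := by
    intro π
    constructor
    · rintro ⟨a, ha⟩
      obtain ⟨σ, rfl⟩ := hs a
      exact ⟨σ, fun φ => by rw [he'0, ha]⟩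
    · rintro ⟨σ, hσ⟩
      refine ⟨h σ, fun x => ?_⟩
      obtain ⟨φ, rfl⟩ := e'.surjective x
      rw [← hσ, he'0]
  -- the Lagrange resolvent
  obtain ⟨ζ, hζ⟩ := hZ
  have hζΩ : IsPrimitiveRoot (algebraMap K Ω ζ) ℓ :=
    hζ.map_of_injective (algebraMap K Ω).injective
  let χ : AddChar (ZMod ℓ) Ω := AddChar.zmodChar ℓ hζΩ.pow_eq_one
  have hχσ : ∀ (σ : Ω ≃ₐ[K] Ω) (t : ZMod ℓ), σ (χ t) = χ t := by
    intro σ t
    change σ (AddChar.zmodChar ℓ hζΩ.pow_eq_one t) = AddChar.zmodChar ℓ hζΩ.pow_eq_one t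
    rw [AddChar.zmodChar_apply, map_pow, AlgEquiv.commutes]
  have hχ1 : ∀ t : ZMod ℓ, χ t = 1 ↔ t = 0 := by
    intro t
    constructor
    · intro ht
      change AddChar.zmodChar ℓ hζΩ.pow_eq_one t = 1 at ht
      rw [AddChar.zmodChar_apply, hζΩ.pow_eq_one_iff_dvd] at ht
      have h1 : t.val < ℓ := ZMod.val_lt t
      have h2 : t.val = 0 := Nat.eq_zero_of_dvd_of_lt ht h1
      exact (ZMod.val_eq_zero t).1 h2
    · rintro rfl
      exact AddChar.map_zero_eq_one χ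
  let φt : ZMod ℓ → (L →ₐ[K] Ω) := fun t => e.symm (x₀, t)
  have hφinj : Function.Injective φt := by
    intro a b hab
    have h1 := e.symm.injective hab
    exact congrArg Prod.snd h1
  have hφ : ∀ σ ∈ S, ∀ t, act L σ (φt t) = φt (c0 σ x₀ + t) := by
    intro σ hσ t
    apply e.injective
    rw [hP]
    change P σ (e (e.symm (x₀, t))) = e (e.symm (x₀, c0 σ x₀ + t))
    rw [Equiv.apply_symm_apply, Equiv.apply_symm_apply, hh, (hS σ).1 hσ]
  have hres : ∃ y : L, ∑ t : ZMod ℓ, χ t * φt t y ≠ 0 := by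
    by_contra hcon
    push Not at hcon
    have hli := (linearIndependent_toLinearMap K L Ω).comp φt hφinj
    rw [Fintype.linearIndependent_iff] at hli
    have h1 := hli (fun t => χ t) (by
      ext y
      have := hcon y
      simpa [LinearMap.sum_apply] using this) 0
    have h2 : χ 0 = 1 := AddChar.map_zero_eq_one χ
    rw [h2] at h1
    exact one_ne_zero h1
  obtain ⟨y, hy⟩ := hres
  obtain ⟨r, hr⟩ : ∃ r, r = ∑ t : ZMod ℓ, χ t * φt t y := ⟨_, rfl⟩
  rw [← hr] at hy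
  have hσr : ∀ σ ∈ S, σ r = χ (-(c0 σ x₀)) * r := by
    intro σ hσ
    rw [hr, map_sum, Finset.mul_sum]
    have h1 : ∀ t : ZMod ℓ, σ (χ t * φt t y) =
        χ (-(c0 σ x₀)) * (χ (c0 σ x₀ + t) * φt (c0 σ x₀ + t) y) := by
      intro t
      rw [map_mul, hχσ, ← hφ σ hσ t, act_apply_apply, ← mul_assoc, ← AddChar.map_add_eq_mul]
      congr 2
      ring
    rw [Finset.sum_congr rfl (fun t _ => h1 t)]
    exact Equiv.sum_comp (Equiv.addLeft (c0 σ x₀))
      (fun u => χ (-(c0 σ x₀)) * (χ u * φt u y))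
  have hσr1 : ∀ σ ∈ S, σ r = r ↔ σ ∈ L.fixingSubgroup := by
    intro σ hσ
    rw [hσr σ hσ, hLfix, mul_eq_right₀ hy, hχ1, neg_eq_zero]
    exact ⟨fun h => ⟨hσ, h⟩, fun h => h.2⟩
  refine ⟨M, r, ⟨hMfd, e', he'⟩, ?_, ?_, ?_⟩
  · rw [hMdef, mem_fixedField_iff]
    intro σ hσ
    rw [map_pow, hσr σ hσ, mul_pow, ← AddChar.map_nsmul_eq_pow]
    simp
  · intro hrM
    obtain ⟨σ, hσ⟩ := (he (Equiv.prodCongr (Equiv.refl X) (Equiv.addLeft (1 : ZMod ℓ)))).1
      ⟨1, fun _ => 1, fun x t => by simp⟩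
    have h1 := hσ (e.symm (x₀, 0))
    rw [← act_apply, hP, Equiv.apply_symm_apply, hh] at h1
    have h2 := congrArg Prod.fst h1
    have h3 := congrArg Prod.snd h1
    have hσS : σ ∈ S := by
      rw [hS]
      simpa using h2
    have h4 : c0 σ x₀ = 1 := by simpa using h3
    rw [hMdef, mem_fixedField_iff] at hrM
    have h5 := (hσr1 σ hσS).1 (hrM σ hσS)
    have h6 := ((hLfix σ).1 h5).2
    rw [h4] at h6
    exact one_ne_zero h6
  · rw [← InfiniteGalois.fixedField_fixingSubgroup L,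
      ← InfiniteGalois.fixedField_fixingSubgroup (M ⊔ IntermediateField.adjoin K {r})]
    congr 1
    rw [IntermediateField.fixingSubgroup_sup, hM]
    ext σ
    rw [Subgroup.mem_inf]
    have h7 : σ ∈ (IntermediateField.adjoin K {r}).fixingSubgroup ↔ σ r = r := by
      rw [IntermediateField.mem_fixingSubgroup_iff]
      have := IntermediateField.forall_mem_adjoin_smul_eq_self_iff (F := K) (S := ({r} : Set Ω)) σ
      simpa using this
    rw [h7]
    constructor
    · intro h8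
      have h9 := hker h8
      exact ⟨h9, (hσr1 σ h9).2 h8⟩
    · rintro ⟨h8, h9⟩
      exact (hσr1 σ h8).1 h9

end main

/-- extensions with group `C_ℓ ≀ H` are Kummer extensions -/
theorem t_ForwL : Pool.Agent.U737.MN.ForwL := by
  intro ℓ K Ω _ _ _ _ _ H X _ _ _ _ _ _ _ L hℓ hZ hL hw
  exact forwardL ℓ hℓ hZ L hL hw

end Pool.Agent.U458.MN
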